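import Mathlib

set_option autoImplicit false

open Cardinal Set

namespace Pool.Agent.Lib.P50703a

/-- the well ordered type whose order type is the initial ordinal of `c` -/
abbrev W (c : Cardinal.{0}) : Type := c.ord.ToType

theorem mk_W (c : Cardinal.{0}) : #(W c) = c := by simp

theorem mk_Iio_W {c : Cardinal.{0}} (x : W c) : #(Iio x) < c := mk_Iio_toType_ord_lt x

theorem mk_Iic_W {c : Cardinal.{0}} (hc : ℵ₀ ≤ c) (x : W c) : #(Iic x) < c := by
  have h : Iic x = Iio x ∪ {x} := by ext y; simp [le_iff_lt_or_eq]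
  rw [h]
  refine (mk_union_le _ _).trans_lt (add_lt_of_lt hc (mk_Iio_W x) ?_)
  rw [mk_singleton]
  exact one_lt_aleph0.trans_le hc

/-- small subsets of a regular well order are strictly bounded -/
theorem bdd {c : Cardinal.{0}} (hc : c.IsRegular) {A : Set (W c)} (hA : #A < c) :
    ∃ b : W c, ∀ x ∈ A, x < b := by
  by_contra hcon
  push Not at hcon
  have h1 : (univ : Set (W c)) = ⋃ y : A, Iic (y : W c) := by
    ext b
    obtain ⟨x, hx, hb⟩ := hcon b
    simp only [mem_univ, mem_iUnion, mem_Iic, true_iff]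
    exact ⟨⟨x, hx⟩, hb⟩
  have h2 : #(⋃ y : A, Iic (y : W c) : Set (W c)) < c := by
    rw [card_iUnion_lt_iff_forall_of_isRegular hc hA]
    intro y
    exact mk_Iic_W hc.aleph0_le _
  rw [← h1, mk_univ, mk_W] at h2
  exact lt_irrefl _ h2

/-- closure points -/
theorem closure_point {c : Cardinal.{0}} (hc : c.IsRegular) (hunc : ℵ₀ < c) (Φ : W c → W c)
    (b : W c) : ∃ a : W c, b < a ∧ ∀ x < a, Φ x < a := by
  classical
  have hstep : ∀ y : W c, ∃ z : W c, y < z ∧ ∀ x ≤ y, Φ x < z := by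
    intro y
    obtain ⟨z, hz⟩ := bdd hc (A := (Φ '' Iic y) ∪ {y}) (by
      refine (mk_union_le _ _).trans_lt (add_lt_of_lt hc.aleph0_le
        (mk_image_le.trans_lt (mk_Iic_W hc.aleph0_le y)) ?_)
      rw [mk_singleton]
      exact one_lt_aleph0.trans_le hc.aleph0_le)
    exact ⟨z, hz y (by simp), fun x hx => hz _ (Or.inl ⟨x, hx, rfl⟩)⟩
  choose nx hnx1 hnx2 using hstep
  let s : ℕ → W c := fun n => Nat.rec b (fun _ y => nx y) n
  have hs : ∀ n, s (n + 1) = nx (s n) := fun n => rfl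
  obtain ⟨a, ha, hmin⟩ := WellFounded.has_min (wellFounded_lt (α := W c))
    {a | ∀ n, s n < a} (by
      obtain ⟨z, hz⟩ := bdd hc (A := range s) (by
        refine lt_of_le_of_lt ?_ hunc
        exact mk_le_aleph0_iff.2 (countable_range s).to_subtype)
      exact ⟨z, fun n => hz _ ⟨n, rfl⟩⟩)
  refine ⟨a, ha 0, fun x hx => ?_⟩
  have hxn : ∃ n, x ≤ s n := by
    by_contra hcon
    push Not at hcon
    exact hmin x hcon hx
  obtain ⟨n, hn⟩ := hxn
  exact (hnx2 (s n) x hn).trans ((hs n) ▸ ha (n + 1))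

/-- the first uncountable well order -/
abbrev Om : Type := W ℵ₁

theorem reg1 : (ℵ₁ : Cardinal.{0}).IsRegular := isRegular_aleph_one

theorem unc1 : ℵ₀ < (ℵ₁ : Cardinal.{0}) := aleph0_lt_aleph_one

theorem countable_of_lt_aleph_one {κ : Cardinal.{0}} (h : κ < ℵ₁) : κ ≤ ℵ₀ := by
  rwa [← succ_aleph0, Order.lt_succ_iff] at h

theorem countable_Iio_Om (a : Om) : (Iio a).Countable :=
  mk_le_aleph0_iff.1 (countable_of_lt_aleph_one (mk_Iio_W a))

theorem countable_Iic_Om (a : Om) : (Iic a).Countable :=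
  mk_le_aleph0_iff.1 (countable_of_lt_aleph_one (mk_Iic_W aleph0_lt_aleph_one.le a))

theorem bdd_countable {A : Set Om} (hA : A.Countable) : ∃ b : Om, ∀ x ∈ A, x < b :=
  bdd reg1 ((mk_le_aleph0_iff.2 hA.to_subtype).trans_lt unc1)

instance : Nonempty Om := by
  rw [← mk_ne_zero_iff, mk_W]
  exact (aleph0_pos.trans aleph0_lt_aleph_one).ne'

/-- `S` is stationary, in functional form -/
def Stat (S : Set Om) : Prop :=
  ∀ Φ : Om → Om, ∃ a ∈ S, (∃ x, x < a) ∧ ∀ x < a, Φ x < a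

theorem exists_stat : ∃ S : Set Om, Stat S ∧ Stat Sᶜ := by
  classical
  by_contra hcon
  push Not at hcon
  -- an injection into the reals
  obtain ⟨r⟩ : Nonempty (Om ↪ (ℕ → Bool)) := by
    have h1 : #Om ≤ #(ℕ → Bool) := by
      rw [mk_W]
      simpa using aleph_one_le_continuum
    exact Cardinal.le_def _ _ |>.1 h1
  have h1 : ∀ n, ∃ (Φ : Om → Om) (v : Bool), ∀ a, (∃ x, x < a) → (∀ x < a, Φ x < a) → r a n = v := by
    intro n
    by_cases hS : Stat {a | r a n = true}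
    · have h2 := hcon _ hS
      unfold Stat at h2
      push Not at h2
      obtain ⟨Φ, hΦ⟩ := h2
      refine ⟨Φ, true, fun a ha1 ha2 => ?_⟩
      by_contra hne
      obtain ⟨x, hx, hx2⟩ := hΦ a hne ha1
      exact absurd (ha2 x hx) (not_lt.2 hx2)
    · unfold Stat at hS
      push Not at hS
      obtain ⟨Φ, hΦ⟩ := hS
      refine ⟨Φ, false, fun a ha1 ha2 => ?_⟩
      by_contra hne
      have hne' : r a n = true := by simpa using hne
      obtain ⟨x, hx, hx2⟩ := hΦ a hne' ha1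
      exact absurd (ha2 x hx) (not_lt.2 hx2)
  choose Φ v hΦ using h1
  have h2 : ∀ x : Om, ∃ y : Om, ∀ n, Φ n x < y := by
    intro x
    obtain ⟨y, hy⟩ := bdd_countable (countable_range fun n => Φ n x)
    exact ⟨y, fun n => hy _ ⟨n, rfl⟩⟩
  choose Ψ hΨ using h2
  obtain ⟨a, ha1, ha2⟩ := closure_point reg1 unc1 Ψ (Classical.arbitrary Om)
  obtain ⟨a', ha1', ha2'⟩ := closure_point reg1 unc1 Ψ a
  have h3 : r a = r a' := by
    funext n
    rw [hΦ n a ⟨_, ha1⟩ (fun x hx => (hΨ x n).trans (ha2 x hx)),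
      hΦ n a' ⟨_, ha1'⟩ (fun x hx => (hΨ x n).trans (ha2' x hx))]
  exact absurd (r.injective h3) ha1'.ne

/-- A small stationary family of countable subsets of `K`. -/
def StatFam (S : Set Om) (K : Type) : Prop :=
  ∃ 𝒮 : Set (Set K), #𝒮 ≤ #K ∧ (∀ X ∈ 𝒮, X.Countable) ∧
    ∀ (F : K → Om → Om → ℕ → K) (H : K → Om → Om → ℕ → Om),
      ∃ X ∈ 𝒮, ∃ a ∈ S, X.Nonempty ∧ (∃ x, x < a) ∧
        ∀ x ∈ X, ∀ b < a, ∀ c < a, ∀ n, F x b c n ∈ X ∧ H x b c n < a

theorem statFam_base {S : Set Om} (hS : Stat S) (K : Type) (hK : #K = ℵ₁) : StatFam S K := by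
  classical
  obtain ⟨e⟩ : Nonempty (K ≃ Om) := Cardinal.eq.1 (by rw [hK, mk_W])
  refine ⟨range fun a : Om => e ⁻¹' Iio a, ?_, ?_, ?_⟩
  · refine mk_range_le.trans ?_
    rw [mk_W, hK]
  · rintro X ⟨a, rfl⟩
    exact (countable_Iio_Om a).preimage e.injective
  · intro F H
    have h1 : ∀ x : Om, ∃ y : Om, ∀ u ≤ x, ∀ v ≤ x, ∀ w ≤ x, ∀ n,
        e (F (e.symm u) v w n) < y ∧ H (e.symm u) v w n < y := by
      intro x
      let A : Set Om := ⋃ n : ℕ, (fun p : Om × Om × Om => e (F (e.symm p.1) p.2.1 p.2.2 n)) ''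
        (Iic x ×ˢ (Iic x ×ˢ Iic x)) ∪ (fun p : Om × Om × Om => H (e.symm p.1) p.2.1 p.2.2 n) ''
        (Iic x ×ˢ (Iic x ×ˢ Iic x))
      have hc3 : (Iic x ×ˢ (Iic x ×ˢ Iic x)).Countable :=
        (countable_Iic_Om x).prod ((countable_Iic_Om x).prod (countable_Iic_Om x))
      have hA : A.Countable := countable_iUnion fun n => (hc3.image _).union (hc3.image _)
      obtain ⟨y, hy⟩ := bdd_countable hA
      refine ⟨y, fun u hu v hv w hw n => ⟨hy _ ?_, hy _ ?_⟩⟩
      · exact mem_iUnion.2 ⟨n, Or.inl ⟨(u, v, w), ⟨hu, hv, hw⟩, rfl⟩⟩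
      · exact mem_iUnion.2 ⟨n, Or.inr ⟨(u, v, w), ⟨hu, hv, hw⟩, rfl⟩⟩
    choose Φ hΦ using h1
    obtain ⟨a, haS, hne, ha⟩ := hS Φ
    refine ⟨_, ⟨a, rfl⟩, a, haS, ?_, hne, ?_⟩
    · obtain ⟨x, hx⟩ := hne
      exact ⟨e.symm x, by simpa using hx⟩
    · intro x hx b hb c hc n
      have hx' : e x < a := hx
      have hm : max (e x) (max b c) < a := max_lt hx' (max_lt hb hc)
      have := hΦ (max (e x) (max b c)) (e x) (le_max_left _ _) b
        ((le_max_left _ _).trans (le_max_right _ _)) c ((le_max_right _ _).trans (le_max_right _ _)) n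
      rw [e.symm_apply_apply] at this
      exact ⟨this.1.trans (ha _ hm), this.2.trans (ha _ hm)⟩

theorem statFam_succ {S : Set Om} {c : Cardinal.{0}} (hc : ℵ₁ ≤ c)
    (ih : ∀ K : Type, #K = c → StatFam S K) (K : Type) (hK : #K = Order.succ c) :
    StatFam S K := by
  classical
  have hc0 : ℵ₀ ≤ c := aleph0_lt_aleph_one.le.trans hc
  have hreg : (Order.succ c).IsRegular := isRegular_succ hc0
  have hunc : ℵ₀ < Order.succ c := hc0.trans_lt (Order.lt_succ c)
  obtain ⟨e⟩ : Nonempty (K ≃ W (Order.succ c)) := Cardinal.eq.1 (by rw [hK, mk_W])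
  have hle : ∀ z : W (Order.succ c), #(Iio z) ≤ c := fun z => Order.lt_succ_iff.1 (mk_Iio_W z)
  -- a family for each initial segment of size `c`
  have h1 : ∀ z : W (Order.succ c), ∃ 𝒮 : Set (Set (Iio z)), #𝒮 ≤ c ∧
      (#(Iio z) = c → (∀ X ∈ 𝒮, X.Countable) ∧
      ∀ (F : Iio z → Om → Om → ℕ → Iio z) (H : Iio z → Om → Om → ℕ → Om),
      ∃ X ∈ 𝒮, ∃ a ∈ S, X.Nonempty ∧ (∃ x, x < a) ∧
        ∀ x ∈ X, ∀ b < a, ∀ c < a, ∀ n, F x b c n ∈ X ∧ H x b c n < a) := by
    intro z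
    by_cases hz : #(Iio z) = c
    · obtain ⟨𝒮, h1, h2, h3⟩ := ih _ hz
      exact ⟨𝒮, h1.trans hz.le, fun _ => ⟨h2, h3⟩⟩
    · exact ⟨∅, by simp, fun h => absurd h hz⟩
  choose fam hfam1 hfam2 using h1
  let tr : (z : W (Order.succ c)) → Set (Iio z) → Set K := fun z X => e ⁻¹' (Subtype.val '' X)
  refine ⟨⋃ z ∈ {z : W (Order.succ c) | #(Iio z) = c}, tr z '' (fam z), ?_, ?_, ?_⟩
  · rw [hK]
    refine (mk_le_mk_of_subset (t := ⋃ z, tr z '' (fam z)) ?_).trans ?_
    · intro Y hY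
      simp only [mem_iUnion] at hY ⊢
      obtain ⟨z, -, hz⟩ := hY
      exact ⟨z, hz⟩
    refine (mk_iUnion_le _).trans ?_
    rw [mk_W]
    refine (mul_le_mul' le_rfl (ciSup_le' fun z =>
      mk_image_le.trans ((hfam1 z).trans (Order.le_succ c)))).trans ?_
    rw [mul_eq_self hunc.le]
  · rintro Y hY
    simp only [mem_iUnion] at hY
    obtain ⟨z, hz, X, hX, rfl⟩ := hY
    exact (((hfam2 z hz).1 X hX).image _).preimage e.injective
  · intro F H
    -- a large initial segment closed under `F`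
    have h2 : ∀ x : W (Order.succ c), ∃ y : W (Order.succ c), ∀ u ≤ x, ∀ v w n,
        e (F (e.symm u) v w n) < y := by
      intro x
      obtain ⟨y, hy⟩ := bdd hreg (A := range fun p : (Iic x) × Om × Om × ℕ =>
          e (F (e.symm p.1) p.2.1 p.2.2.1 p.2.2.2)) (by
        refine mk_range_le.trans_lt ?_
        rw [Order.lt_succ_iff]
        have hx : #(Iic x) ≤ c := Order.lt_succ_iff.1 (mk_Iic_W hunc.le x)
        simp only [mk_prod, lift_id, mk_W, mk_nat]
        have h3 : (ℵ₁ : Cardinal.{0}) * (ℵ₁ * ℵ₀) ≤ c := by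
          refine (mul_le_mul' hc (mul_le_mul' hc hc0)).trans ?_
          rw [mul_eq_self hc0, mul_eq_self hc0]
        exact (mul_le_mul' hx h3).trans (mul_eq_self hc0).le)
      exact ⟨y, fun u hu v w n => hy _ ⟨(⟨u, hu⟩, v, w, n), rfl⟩⟩
    choose Φ hΦ using h2
    obtain ⟨z₀, hz₀⟩ : ∃ z₀ : W (Order.succ c), c ≤ #(Iio z₀) := by
      obtain ⟨g⟩ : Nonempty (W c ↪ W (Order.succ c)) :=
        Cardinal.le_def _ _ |>.1 (by rw [mk_W, mk_W]; exact Order.le_succ c)
      obtain ⟨z₀, hz₀⟩ := bdd hreg (A := range g) (by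
        refine mk_range_le.trans_lt ?_
        rw [mk_W]
        exact Order.lt_succ c)
      refine ⟨z₀, ?_⟩
      have : #(W c) ≤ #(Iio z₀) :=
        mk_le_of_injective (f := fun x => (⟨g x, hz₀ _ ⟨x, rfl⟩⟩ : Iio z₀)) (by
          intro x y hxy
          exact g.injective (congrArg Subtype.val hxy))
      rwa [mk_W] at this
    obtain ⟨z, hz₀z, hz⟩ := closure_point hreg hunc Φ z₀
    have hzc : #(Iio z) = c := le_antisymm (hle z)
      (hz₀.trans (mk_le_mk_of_subset (Iio_subset_Iio hz₀z.le)))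
    obtain ⟨X, hX, a, haS, hne, hx0, hcl⟩ := (hfam2 z hzc).2
      (fun x b c n => ⟨e (F (e.symm x) b c n), (hΦ x x le_rfl b c n).trans (hz x x.2)⟩)
      (fun x b c n => H (e.symm x) b c n)
    refine ⟨tr z X, mem_biUnion hzc ⟨X, hX, rfl⟩, a, haS, ?_, hx0, ?_⟩
    · obtain ⟨x, hx⟩ := hne
      exact ⟨e.symm x, ⟨x, hx, by simp⟩⟩
    · rintro x ⟨x', hx', hxe⟩ b hb c hc n
      have hxe' : x = e.symm x' := by rw [hxe]; simp
      obtain ⟨h4, h5⟩ := hcl x' hx' b hb c hc n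
      subst hxe'
      refine ⟨⟨_, h4, rfl⟩, h5⟩

theorem statFam_aleph {S : Set Om} (hS : Stat S) (n : ℕ) :
    ∀ K : Type, #K = ℵ_ (n + 1) → StatFam S K := by
  induction n with
  | zero => intro K hK; exact statFam_base hS K (by simpa using hK)
  | succ n ih =>
    intro K hK
    refine statFam_succ (c := ℵ_ (n + 1)) ?_ ih K ?_
    · exact aleph_le_aleph.2 (by simp)
    · rw [hK, ← aleph_succ]
      congr 1

end Pool.Agent.Lib.P50703a
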