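import Mathlib

set_option autoImplicit false

open Cardinal Set
open scoped Ordinal

namespace Pool.Agent.Lib.P50703a

/-- A partial order is a tree if the strict predecessors of every node are well ordered. -/
def IsTree (T : Type) [PartialOrder T] : Prop :=
  ∀ t : T, IsWellOrder (Iio t) (· < ·)

/-- The node `t` is on level `α`: its set of strict predecessors has order type `α`. -/
def OnLevel {T : Type} [PartialOrder T] (t : T) (α : Ordinal.{0}) : Prop :=
  Nonempty (Iio t ≃o Iio α)

/-- `T` has height `ω₁`: `ω₁` is the least `α` such that level `α` is empty. -/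
def HeightOmegaOne (T : Type) [PartialOrder T] : Prop :=
  (∀ α : Ordinal.{0}, α < ω₁ → ∃ t : T, OnLevel t α) ∧ ¬ ∃ t : T, OnLevel t ω₁

/-- `T` has a cofinal (uncountable) branch. -/
def HasCofinalBranch (T : Type) [PartialOrder T] : Prop :=
  ∃ B : Set T, IsMaxChain (· ≤ ·) B ∧ ¬ B.Countable

/-- `T` is special: a countable union of antichains. -/
def IsSpecial (T : Type) [PartialOrder T] : Prop :=
  ∃ A : ℕ → Set T, (∀ n, IsAntichain (· ≤ ·) (A n)) ∧ ⋃ n, A n = Set.univ

/-- The special tree number `st`. -/
noncomputable def specialTreeNumber : Cardinal.{0} :=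
  sInf {c | ∃ (T : Type) (_ : PartialOrder T), IsTree T ∧ HeightOmegaOne T ∧
    ¬ HasCofinalBranch T ∧ ¬ IsSpecial T ∧ #T = c}

/-- The uniformity `non(M)` of the meagre ideal of the Cantor space. -/
noncomputable def nonMeagre : Cardinal.{0} :=
  sInf {c | ∃ A : Set (ℕ → Bool), ¬ IsMeagre A ∧ #A = c}

end Pool.Agent.Lib.P50703a
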