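import Mathlib

set_option autoImplicit false

open Cardinal Set

namespace Pool.Agent.Lib.P50703a

section
variable {α : Type} (R : α → α → Prop) (p : ℕ → α)

open Classical in
/-- one step of the coding of points of the Cantor space by chains in the range of `p` -/
noncomputable def stp (q : α × ℕ) (b : Bool) : α × ℕ :=
  if b then (if R q.1 (p q.2) then p q.2 else q.1, 0) else (q.1, q.2 + 1)

/-- the state after reading the first `n` bits of `x` -/
noncomputable def sta (x : ℕ → Bool) : ℕ → α × ℕ
  | 0 => (p 0, 0)
  | n + 1 => stp R p (sta x n) (x n)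

/-- the chain coded by `x` -/
noncomputable def br (x : ℕ → Bool) (n : ℕ) : α := (sta R p x n).1

variable {R p}

theorem br_mem (x : ℕ → Bool) (n : ℕ) : ∃ m, br R p x n = p m := by
  classical
  induction n with
  | zero => exact ⟨0, rfl⟩
  | succ n ih =>
    change ∃ m, (stp R p (sta R p x n) (x n)).1 = p m
    unfold stp
    by_cases hb : x n = true
    · rw [if_pos hb]
      by_cases hR : R (sta R p x n).1 (p (sta R p x n).2)
      · exact ⟨(sta R p x n).2, by simp only [if_pos hR]⟩
      · simp only [if_neg hR]; exact ih
    · rw [if_neg hb]; exact ih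

theorem br_step (hr : ∀ a, R a a) (x : ℕ → Bool) (n : ℕ) : R (br R p x n) (br R p x (n + 1)) := by
  classical
  change R (sta R p x n).1 (stp R p (sta R p x n) (x n)).1
  unfold stp
  by_cases hb : x n = true
  · rw [if_pos hb]
    by_cases hR : R (sta R p x n).1 (p (sta R p x n).2)
    · simp only [if_pos hR]; exact hR
    · simp only [if_neg hR]; exact hr _
  · rw [if_neg hb]; exact hr _

theorem br_mono (hr : ∀ a, R a a) (ht : ∀ a b c, R a b → R b c → R a c) (x : ℕ → Bool) {n m : ℕ}
    (h : n ≤ m) : R (br R p x n) (br R p x m) := by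
  induction h with
  | refl => exact hr _
  | step _ ih => exact ht _ _ _ ih (br_step hr x _)

theorem sta_congr {x y : ℕ → Bool} {n : ℕ} (h : ∀ i < n, x i = y i) :
    sta R p x n = sta R p y n := by
  induction n with
  | zero => rfl
  | succ n ih =>
    change stp R p (sta R p x n) (x n) = stp R p (sta R p y n) (y n)
    rw [ih fun i hi => h i (hi.trans (Nat.lt_succ_self n)), h n (Nat.lt_succ_self n)]

theorem sta_zeros {x : ℕ → Bool} {n k : ℕ} (h : ∀ i, n ≤ i → i < n + k → x i = false) :
    sta R p x (n + k) = ((sta R p x n).1, (sta R p x n).2 + k) := by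
  induction k with
  | zero => rfl
  | succ k ih =>
    change stp R p (sta R p x (n + k)) (x (n + k)) = _
    rw [ih fun i h1 h2 => h i h1 (by omega), h (n + k) (by omega) (by omega)]
    rfl

theorem open_dense (D : Set α) (hD : ∀ n, ∃ m, R (p n) (p m) ∧ p m ∈ D) :
    {x : ℕ → Bool | ∃ n, br R p x n ∈ D} ∈ residual (ℕ → Bool) := by
  classical
  apply residual_of_dense_open
  · have h1 : {x : ℕ → Bool | ∃ n, br R p x n ∈ D} = ⋃ n, {x : ℕ → Bool | br R p x n ∈ D} := by
      ext x; simp
    rw [h1]
    refine isOpen_iUnion fun n => ?_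
    rw [isOpen_iff_forall_mem_open]
    intro x hx
    refine ⟨{y | ∀ i ∈ Finset.range n, y i ∈ ({x i} : Set Bool)}, ?_, ?_, ?_⟩
    · intro y hy
      have h2 : sta R p y n = sta R p x n :=
        sta_congr fun i hi => hy i (Finset.mem_range.2 hi)
      change (sta R p y n).1 ∈ D
      rw [h2]
      exact hx
    · have h3 : {y : ℕ → Bool | ∀ i ∈ Finset.range n, y i ∈ ({x i} : Set Bool)} =
        Set.pi (↑(Finset.range n)) fun i => ({x i} : Set Bool) := by
          ext y; simp [Set.mem_pi]
      rw [h3]
      exact isOpen_set_pi (Finset.finite_toSet _) fun i _ => isOpen_discrete _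
    · intro i _; rfl
  · rw [dense_iff_inter_open]
    rintro U hU ⟨x, hx⟩
    obtain ⟨I, u, hu, hsub⟩ := isOpen_pi_iff.1 hU x hx
    obtain ⟨n, hn⟩ : ∃ n, ∀ i ∈ I, i < n := ⟨I.sup id + 1, fun i hi =>
      Nat.lt_succ_of_le (Finset.le_sup (f := id) hi)⟩
    -- after `n` bits read a one, then `m` zeros, then a one
    let q : α := (stp R p (sta R p x n) true).1
    obtain ⟨k, hk⟩ : ∃ k, q = p k := by
      have h := br_mem (R := R) (p := p) (fun i => if i < n then x i else true) (n + 1)
      have h1 : sta R p (fun i => if i < n then x i else true) n = sta R p x n :=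
        sta_congr fun i hi => by simp [hi]
      change ∃ m, (stp R p (sta R p (fun i => if i < n then x i else true) n)
        (if n < n then x n else true)).1 = p m at h
      rw [h1, if_neg (lt_irrefl n)] at h
      exact h
    obtain ⟨m, hm1, hm2⟩ := hD k
    let y : ℕ → Bool := fun i => if i < n then x i else if i = n then true else
      if i = n + 1 + m then true else false
    have e1 : sta R p y n = sta R p x n := sta_congr fun i hi => by simp [y, hi]
    have e2 : sta R p y (n + 1) = (q, 0) := by
      change stp R p (sta R p y n) (y n) = _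
      have : y n = true := by simp [y]
      rw [e1, this]
      rfl
    have e3 : sta R p y (n + 1 + m) = (q, m) := by
      rw [sta_zeros (fun i h1 h2 => ?_), e2]
      · simp
      · simp only [y]
        rw [if_neg (by omega), if_neg (by omega), if_neg (by omega)]
    have e4 : sta R p y (n + 1 + m + 1) = (p m, 0) := by
      change stp R p (sta R p y (n + 1 + m)) (y (n + 1 + m)) = _
      have : y (n + 1 + m) = true := by
        simp only [y]
        rw [if_neg (by omega), if_neg (by omega)]
        simp
      rw [e3, this]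
      unfold stp
      simp only [if_true]
      rw [if_pos]
      rw [hk]; exact hm1
    refine ⟨y, hsub ?_, n + 1 + m + 1, ?_⟩
    · intro i hi
      have hi' : i < n := hn i hi
      have : y i = x i := by simp [y, hi']
      rw [this]
      exact (hu i hi).2
    · change (sta R p y (n + 1 + m + 1)).1 ∈ D
      rw [e4]
      exact hm2

/-- a non-meagre set of points codes a chain meeting any given countable family of dense sets -/
theorem exists_generic {A : Set (ℕ → Bool)} (hA : ¬ IsMeagre A) {ι : Type} [Countable ι]
    (D : ι → Set α) (hD : ∀ i n, ∃ m, R (p n) (p m) ∧ p m ∈ D i) :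
    ∃ x ∈ A, ∀ i, ∃ n, br R p x n ∈ D i := by
  by_contra hcon
  push Not at hcon
  apply hA
  have h : (⋂ i, {x : ℕ → Bool | ∃ n, br R p x n ∈ D i}) ∈ residual (ℕ → Bool) :=
    countable_iInter_mem.2 fun i => open_dense (D i) (hD i)
  refine Filter.mem_of_superset h ?_
  intro x hx hxA
  obtain ⟨i, hi⟩ := hcon x hxA
  obtain ⟨n, hn⟩ := mem_iInter.1 hx i
  exact hi n hn

end

end Pool.Agent.Lib.P50703a
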