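import Mathlib
import Pool.Agent.Lib.P50703a.Clubs
import Pool.Agent.Lib.P50703a.Generic

set_option autoImplicit false

open Cardinal Set

namespace Pool.Agent.Lib.P50703a

/-- end-extension -/
def EE (s t : Set Om) : Prop := s ⊆ t ∧ ∀ x ∈ t, x ∉ s → ∀ y ∈ s, y < x

theorem EE.refl (s : Set Om) : EE s s := ⟨Subset.rfl, fun _ h h' => absurd h h'⟩

theorem EE.trans {s t u : Set Om} (h : EE s t) (h' : EE t u) : EE s u := by
  refine ⟨h.1.trans h'.1, fun x hx hxs y hy => ?_⟩
  by_cases hxt : x ∈ t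
  · exact h.2 x hxt hxs y hy
  · exact h'.2 x hx hxt y (h.1 hy)

theorem EE.antisymm {s t : Set Om} (h : EE s t) (h' : EE t s) : s = t := h.1.antisymm h'.1

/-- initial segments of a set are comparable -/
theorem EE.comparable {s t u : Set Om} (h : EE s u) (h' : EE t u) : EE s t ∨ EE t s := by
  by_cases hst : s ⊆ t
  · exact Or.inl ⟨hst, fun x hx hxs y hy => h.2 x (h'.1 hx) hxs y hy⟩
  · obtain ⟨x, hxs, hxt⟩ := not_subset.1 hst
    refine Or.inr ⟨fun y hy => ?_, fun z hz hzt y hy => h'.2 z (h.1 hz) hzt y hy⟩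
    by_contra hys
    have h1 := h.2 y (h'.1 hy) hys x hxs
    have h2 := h'.2 x (h.1 hxs) hxt y hy
    exact absurd h1 (lt_asymm h2)

/-- closed sets (limit points below an element of the set belong to the set) -/
def Cl (t : Set Om) : Prop :=
  ∀ a, (∃ u ∈ t, a ≤ u) → (∃ v, v < a) → (∀ b < a, ∃ v ∈ t, b < v ∧ v < a) → a ∈ t

variable (S : Set Om) {K : Type} (𝒮 : Set (Set K)) (A : Set (ℕ → Bool))

/-- codes for nodes: the empty node, an old node, a successor, a limit -/
abbrev Code : Type := Unit ⊕ (Om × K) ⊕ (Om × K) ⊕ (𝒮 × A)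

open Classical in
/-- an enumeration of the pairs `(b, x)` with `b < a`, `x ∈ X` -/
noncomputable def enum [Nonempty K] (a : Om) (X : Set K) : ℕ → Om × K :=
  if h : ∃ e : ℕ → Om × K, range e = Iio a ×ˢ X then h.choose else fun _ => Classical.arbitrary _

theorem enum_range [Nonempty K] {a : Om} {X : Set K} (hX : X.Countable) (hne : X.Nonempty)
    (ha : ∃ x, x < a) : range (enum a X) = Iio a ×ˢ X := by
  have h : ∃ e : ℕ → Om × K, range e = Iio a ×ˢ X := by
    have hc : (Iio a ×ˢ X).Countable := (countable_Iio_Om a).prod hX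
    have hn : (Iio a ×ˢ X).Nonempty := by
      obtain ⟨x, hx⟩ := ha
      obtain ⟨y, hy⟩ := hne
      exact ⟨(x, y), hx, hy⟩
    obtain ⟨e, he⟩ := hc.exists_eq_range hn
    exact ⟨e, he.symm⟩
  unfold enum
  rw [dif_pos h]
  exact h.choose_spec

variable [Nonempty K] (dec : K → Code 𝒮 A)

/-- the union of the chain coded by `r` in the countable set of nodes given by `X` -/
noncomputable def limNode (a : Om) (e : Om → K → Set Om) (X : Set K) (r : ℕ → Bool) : Set Om :=
  ⋃ n, br EE (fun n => e (enum a X n).1 (enum a X n).2) r n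

open Classical in
/-- the nodes of stage `a` -/
noncomputable def nodeStep (a : Om) (e : Om → K → Set Om) (k : K) : Set Om :=
  match dec k with
  | Sum.inl _ => ∅
  | Sum.inr (Sum.inl (b, x)) => e b x
  | Sum.inr (Sum.inr (Sum.inl (b, x))) => if b < a ∧ a ∈ S then e b x ∪ {a} else ∅
  | Sum.inr (Sum.inr (Sum.inr (X, r))) =>
      if a ∈ S ∧ (∀ n, (enum a X.1 n).1 < a) ∧ ∀ c < a, ∃ u ∈ limNode a e X.1 r.1, c < u
      then limNode a e X.1 r.1 ∪ {a} else ∅

open Classical in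
/-- the nodes -/
noncomputable def E : Om → K → Set Om :=
  WellFounded.fix (wellFounded_lt (α := Om)) fun a IH =>
    nodeStep S 𝒮 A dec a fun b => if h : b < a then IH b h else fun _ => ∅

open Classical in
theorem E_eq (a : Om) :
    E S 𝒮 A dec a = nodeStep S 𝒮 A dec a fun b => if b < a then E S 𝒮 A dec b else fun _ => ∅ := by
  unfold E
  rw [WellFounded.fix_eq]
  congr 1

/-- properties of all nodes -/
structure Good (a : Om) (t : Set Om) : Prop where
  sub : t ⊆ S
  le : ∀ x ∈ t, x ≤ a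
  cl : Cl t
  max : t = ∅ ∨ ∃ m ∈ t, ∀ x ∈ t, x ≤ m

theorem good_empty (a : Om) : Good S a ∅ :=
  ⟨empty_subset _, fun x hx => absurd hx (notMem_empty x), fun _ h _ _ => by
    obtain ⟨u, hu, _⟩ := h
    exact absurd hu (notMem_empty u), Or.inl rfl⟩

variable {S}

theorem good_succ {a b : Om} (hb : b < a) (ha : a ∈ S) {s : Set Om} (hs : Good S b s) :
    Good S a (s ∪ {a}) := by
  refine ⟨?_, ?_, ?_, Or.inr ⟨a, Or.inr rfl, ?_⟩⟩
  · rintro x (hx | rfl)
    · exact hs.sub hx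
    · exact ha
  · rintro x (hx | rfl)
    · exact (hs.le x hx).trans hb.le
    · exact le_rfl
  · intro a' h1 h2 h3
    by_cases haa : a' = a
    · exact Or.inr haa
    have hlt : a' < a := by
      obtain ⟨u, hu, hau⟩ := h1
      refine lt_of_le_of_ne (hau.trans ?_) haa
      rcases hu with hu | rfl
      · exact (hs.le u hu).trans hb.le
      · exact le_rfl
    have h3' : ∀ b < a', ∃ v ∈ s, b < v ∧ v < a' := by
      intro c hc
      obtain ⟨v, hv, hcv, hva⟩ := h3 c hc
      rcases hv with hv | rfl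
      · exact ⟨v, hv, hcv, hva⟩
      · exact absurd hva (lt_asymm hlt)
    left
    refine hs.cl a' ?_ h2 h3'
    by_contra hcon
    push Not at hcon
    obtain ⟨v0, hv0⟩ := h2
    obtain ⟨v1, hv1, -, -⟩ := h3' v0 hv0
    rcases hs.max with he | ⟨m, hm, hmax⟩
    · rw [he] at hv1; exact hv1
    · obtain ⟨v, hv, hmv, -⟩ := h3' m (hcon m hm)
      exact absurd (hmax v hv) (not_le.2 hmv)
  · rintro x (hx | rfl)
    · exact (hs.le x hx).trans hb.le
    · exact le_rfl

theorem good_lim {a : Om} (ha : a ∈ S) {p : ℕ → Set Om}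
    (hp : ∀ n, ∃ b < a, Good S b (p n)) (r : ℕ → Bool)
    (hcof : ∀ c < a, ∃ u ∈ ⋃ n, br EE p r n, c < u) :
    Good S a ((⋃ n, br EE p r n) ∪ {a}) := by
  have hbr : ∀ n, ∃ b < a, Good S b (br EE p r n) := by
    intro n
    obtain ⟨m, hm⟩ := br_mem (R := EE) (p := p) r n
    rw [hm]; exact hp m
  have hlt : ∀ x ∈ ⋃ n, br EE p r n, x < a := by
    intro x hx
    obtain ⟨n, hn⟩ := mem_iUnion.1 hx
    obtain ⟨b, hb, hg⟩ := hbr n
    exact (hg.le x hn).trans_lt hb
  refine ⟨?_, ?_, ?_, Or.inr ⟨a, Or.inr rfl, ?_⟩⟩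
  · rintro x (hx | rfl)
    · obtain ⟨n, hn⟩ := mem_iUnion.1 hx
      obtain ⟨b, hb, hg⟩ := hbr n
      exact hg.sub hn
    · exact ha
  · rintro x (hx | rfl)
    · exact (hlt x hx).le
    · exact le_rfl
  · intro a' h1 h2 h3
    by_cases haa : a' = a
    · exact Or.inr haa
    have hlta : a' < a := by
      obtain ⟨u, hu, hau⟩ := h1
      refine lt_of_le_of_ne (hau.trans ?_) haa
      rcases hu with hu | rfl
      · exact (hlt u hu).le
      · exact le_rfl
    obtain ⟨u, hu, hau⟩ := hcof a' hlta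
    obtain ⟨n, hn⟩ := mem_iUnion.1 hu
    obtain ⟨b, hb, hg⟩ := hbr n
    left
    refine mem_iUnion.2 ⟨n, hg.cl a' ⟨u, hn, hau.le⟩ h2 fun c hc => ?_⟩
    obtain ⟨v, hv, hcv, hva⟩ := h3 c hc
    refine ⟨v, ?_, hcv, hva⟩
    rcases hv with hv | rfl
    · obtain ⟨m, hm⟩ := mem_iUnion.1 hv
      rcases le_total m n with hmn | hmn
      · exact (br_mono EE.refl (fun _ _ _ => EE.trans) r hmn).1 hm
      · by_contra hvn
        have := (br_mono EE.refl (fun _ _ _ => EE.trans) r hmn).2 v hm hvn u hn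
        exact absurd (hva.trans hau) (lt_asymm this)
    · exact absurd hva (lt_asymm hlta)
  · rintro x (hx | rfl)
    · exact (hlt x hx).le
    · exact le_rfl

theorem good_E (a : Om) (k : K) : Good S a (E S 𝒮 A dec a k) := by
  classical
  induction a using WellFoundedLT.induction generalizing k with
  | ind a ih =>
    rw [E_eq]
    have hb : ∀ b x, ∃ c ≤ a, Good S c ((if b < a then E S 𝒮 A dec b else fun _ => ∅) x) := by
      intro b x
      by_cases h : b < a
      · rw [if_pos h]; exact ⟨b, h.le, ih b h x⟩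
      · rw [if_neg h]; exact ⟨a, le_rfl, good_empty S a⟩
    unfold nodeStep
    rcases dec k with _ | ⟨b, x⟩ | ⟨b, x⟩ | ⟨X, r⟩
    · exact good_empty S a
    · obtain ⟨c, hc, hg⟩ := hb b x
      exact ⟨hg.sub, fun y hy => (hg.le y hy).trans hc, hg.cl, hg.max⟩
    · dsimp only
      by_cases h : b < a ∧ a ∈ S
      · rw [if_pos h, if_pos h.1]
        exact good_succ h.1 h.2 (ih b h.1 x)
      · rw [if_neg h]
        exact good_empty S a
    · dsimp only
      by_cases h : a ∈ S ∧ (∀ n, (enum a X.1 n).1 < a) ∧ ∀ c < a, ∃ u ∈ limNode a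
          (fun b => if b < a then E S 𝒮 A dec b else fun _ => ∅) X.1 r.1, c < u
      · rw [if_pos h]
        refine good_lim h.1 (fun n => ?_) r.1 h.2.2
        refine ⟨(enum a X.1 n).1, h.2.1 n, ?_⟩
        dsimp only
        rw [if_pos (h.2.1 n)]
        exact ih _ (h.2.1 n) _
      · rw [if_neg h]
        exact good_empty S a

variable (S)

/-- the set of nodes -/
def TT : Set (Set Om) := {t | ∃ a k, t = E S 𝒮 A dec a k}

variable {S} {𝒮} {A} {dec}

theorem TT_good {t : Set Om} (ht : t ∈ TT S 𝒮 A dec) : ∃ a, Good S a t := by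
  obtain ⟨a, k, rfl⟩ := ht
  exact ⟨a, good_E 𝒮 A dec a k⟩

theorem E_succ (hdec : Function.Surjective dec) {a b : Om} (hb : b < a) (ha : a ∈ S) (x : K) :
    ∃ k, E S 𝒮 A dec a k = E S 𝒮 A dec b x ∪ {a} := by
  classical
  obtain ⟨k, hk⟩ := hdec (Sum.inr (Sum.inr (Sum.inl (b, x))))
  refine ⟨k, ?_⟩
  rw [E_eq]
  unfold nodeStep
  rw [hk]
  dsimp only
  rw [if_pos ⟨hb, ha⟩, if_pos hb]

theorem empty_mem (hdec : Function.Surjective dec) : (∅ : Set Om) ∈ TT S 𝒮 A dec := by
  classical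
  obtain ⟨k, hk⟩ := hdec (Sum.inl ())
  refine ⟨Classical.arbitrary Om, k, ?_⟩
  rw [E_eq]
  unfold nodeStep
  rw [hk]

theorem E_lim (hdec : Function.Surjective dec) {a : Om} (ha : a ∈ S) {X : Set K} (hX : X ∈ 𝒮)
    {r : ℕ → Bool} (hr : r ∈ A) (h1 : ∀ n, (enum a X n).1 < a)
    (h2 : ∀ c < a, ∃ u ∈ ⋃ n, br EE (fun n => E S 𝒮 A dec (enum a X n).1 (enum a X n).2) r n, c < u) :
    (⋃ n, br EE (fun n => E S 𝒮 A dec (enum a X n).1 (enum a X n).2) r n) ∪ {a} ∈
      TT S 𝒮 A dec := by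
  classical
  obtain ⟨k, hk⟩ := hdec (Sum.inr (Sum.inr (Sum.inr (⟨X, hX⟩, ⟨r, hr⟩))))
  refine ⟨a, k, ?_⟩
  rw [E_eq]
  unfold nodeStep
  rw [hk]
  dsimp only
  have h3 : (fun n => (if (enum a X n).1 < a then E S 𝒮 A dec (enum a X n).1 else fun _ => ∅)
      (enum a X n).2) = fun n => E S 𝒮 A dec (enum a X n).1 (enum a X n).2 := by
    funext n
    rw [if_pos (h1 n)]
  have h4 : limNode a (fun b => if b < a then E S 𝒮 A dec b else fun _ => ∅) X r =
      ⋃ n, br EE (fun n => E S 𝒮 A dec (enum a X n).1 (enum a X n).2) r n := by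
    unfold limNode
    rw [h3]
  rw [h4, if_pos ⟨ha, h1, h2⟩]

end Pool.Agent.Lib.P50703a
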