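import Mathlib
import Pool.Agent.Lib.P50703a.Tree
import Pool.Agent.Lib.P50703a.Defs

set_option autoImplicit false

open Cardinal Set
open scoped Ordinal

namespace Pool.Agent.Lib.P50703a

section
variable {S : Set Om} {K : Type} {𝒮 : Set (Set K)} {A : Set (ℕ → Bool)} [Nonempty K]
  {dec : K → Code 𝒮 A}

/-- no function to `ℕ` separates comparable nodes -/
theorem not_special (hdec : Function.Surjective dec) (hA : ¬ IsMeagre A) (hS : Stat S)
    (hcount : ∀ X ∈ 𝒮, X.Countable)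
    (hstat : ∀ (F : K → Om → Om → ℕ → K) (H : K → Om → Om → ℕ → Om),
      ∃ X ∈ 𝒮, ∃ a ∈ S, X.Nonempty ∧ (∃ x, x < a) ∧
        ∀ x ∈ X, ∀ b < a, ∀ c < a, ∀ n, F x b c n ∈ X ∧ H x b c n < a)
    (f : Set Om → ℕ) (hf : ∀ s ∈ TT S 𝒮 A dec, ∀ t ∈ TT S 𝒮 A dec, EE s t → s ≠ t → f s ≠ f t) :
    False := by
  classical
  -- codes of nodes
  let N : Om × K → Set Om := fun q => E S 𝒮 A dec q.1 q.2
  have hN : ∀ q, N q ∈ TT S 𝒮 A dec := fun q => ⟨q.1, q.2, rfl⟩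
  have hNs : ∀ t ∈ TT S 𝒮 A dec, ∃ q, N q = t := by
    rintro t ⟨a, k, rfl⟩; exact ⟨(a, k), rfl⟩
  -- witnesses for values of `f`
  have w1 : ∀ (q : Om × K) (m : ℕ), ∃ q' : Om × K,
      (∃ t ∈ TT S 𝒮 A dec, EE (N q) t ∧ N q ≠ t ∧ f t = m) → EE (N q) (N q') ∧ N q ≠ N q' ∧
        f (N q') = m := by
    intro q m
    by_cases h : ∃ t ∈ TT S 𝒮 A dec, EE (N q) t ∧ N q ≠ t ∧ f t = m
    · obtain ⟨t, ht, h1, h2, h3⟩ := h
      obtain ⟨q', rfl⟩ := hNs t ht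
      exact ⟨q', fun _ => ⟨h1, h2, h3⟩⟩
    · exact ⟨q, fun h' => absurd h' h⟩
  choose g1 hg1 using w1
  -- long extensions
  have w2 : ∀ (q : Om × K) (c : Om), ∃ q' : Om × K, EE (N q) (N q') ∧ ∃ u ∈ N q', c < u := by
    rintro ⟨b, x⟩ c
    obtain ⟨a, haS, ⟨x0, hx0⟩, ha⟩ := hS (fun _ => max b c)
    have hlt : max b c < a := ha x0 hx0
    obtain ⟨k, hk⟩ := E_succ (𝒮 := 𝒮) (A := A) hdec ((le_max_left b c).trans_lt hlt) haS x
    refine ⟨(a, k), ?_, a, ?_, (le_max_right b c).trans_lt hlt⟩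
    · change EE (E S 𝒮 A dec b x) (E S 𝒮 A dec a k)
      rw [hk]
      refine ⟨subset_union_left, fun y hy hys z hz => ?_⟩
      rcases hy with hy | rfl
      · exact absurd hy hys
      · exact ((good_E 𝒮 A dec b x).le z hz).trans_lt ((le_max_left b c).trans_lt hlt)
    · change a ∈ E S 𝒮 A dec a k
      rw [hk]; exact Or.inr rfl
  choose g2 hg2 using w2
  obtain ⟨X, hX, a, haS, hXne, ha0, hcl⟩ := hstat
    (fun x b c n => if n % 2 = 0 then (g1 (b, x) (n / 2)).2 else (g2 (b, x) c).2)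
    (fun x b c n => if n % 2 = 0 then (g1 (b, x) (n / 2)).1 else (g2 (b, x) c).1)
  have c1 : ∀ b < a, ∀ x ∈ X, ∀ m, (g1 (b, x) m).1 < a ∧ (g1 (b, x) m).2 ∈ X := by
    intro b hb x hx m
    have h := hcl x hx b hb b hb (2 * m)
    simp only [Nat.mul_mod_right, if_true, Nat.mul_div_cancel_left m (by norm_num : 0 < 2)] at h
    exact ⟨h.2, h.1⟩
  have c2 : ∀ b < a, ∀ x ∈ X, ∀ c < a, (g2 (b, x) c).1 < a ∧ (g2 (b, x) c).2 ∈ X := by
    intro b hb x hx c hc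
    have h := hcl x hx b hb c hc 1
    simp only [show ¬ (1 % 2 = 0) by norm_num, if_false] at h
    exact ⟨h.2, h.1⟩
  have hr := enum_range (hcount X hX) hXne ha0
  set p : ℕ → Set Om := fun n => E S 𝒮 A dec (enum a X n).1 (enum a X n).2 with hp
  have hmem : ∀ n, (enum a X n).1 < a ∧ (enum a X n).2 ∈ X := fun n => by
    have : enum a X n ∈ Iio a ×ˢ X := hr ▸ mem_range_self n
    exact this
  have hsur : ∀ q : Om × K, q.1 < a → q.2 ∈ X → ∃ n, p n = N q := by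
    intro q h1 h2
    have : q ∈ range (enum a X) := hr ▸ ⟨h1, h2⟩
    obtain ⟨n, hn⟩ := this
    exact ⟨n, by simp only [hp, hn]; rfl⟩
  -- the dense sets
  have : Countable (Iio a) := (countable_Iio_Om a).to_subtype
  let D : ℕ ⊕ Iio a → Set (Set Om) := Sum.elim
    (fun m => {s | f s = m ∨ ¬ ∃ t ∈ TT S 𝒮 A dec, EE s t ∧ s ≠ t ∧ f t = m})
    (fun c => {s | ∃ u ∈ s, (c : Om) < u})
  obtain ⟨r, hrA, hgen⟩ := exists_generic (R := EE) (p := p) hA D (by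
    rintro (m | ⟨c, hc⟩) n
    · by_cases h : ∃ t ∈ TT S 𝒮 A dec, EE (p n) t ∧ p n ≠ t ∧ f t = m
      · obtain ⟨h1, h2, h3⟩ := hg1 (enum a X n) m h
        obtain ⟨h4, h5⟩ := c1 _ (hmem n).1 _ (hmem n).2 m
        obtain ⟨k, hk⟩ := hsur _ h4 h5
        refine ⟨k, ?_, Or.inl ?_⟩
        · rw [hk]; exact h1
        · rw [hk]; exact h3
      · exact ⟨n, EE.refl _, Or.inr h⟩
    · obtain ⟨h1, h2⟩ := hg2 (enum a X n) c
      obtain ⟨h4, h5⟩ := c2 _ (hmem n).1 _ (hmem n).2 c hc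
      obtain ⟨k, hk⟩ := hsur _ h4 h5
      refine ⟨k, ?_, ?_⟩
      · rw [hk]; exact h1
      · change ∃ u ∈ p k, c < u
        rw [hk]; exact h2)
  have hcof : ∀ c < a, ∃ u ∈ ⋃ n, br EE p r n, c < u := by
    intro c hc
    obtain ⟨n, u, hu, hcu⟩ := hgen (Sum.inr ⟨c, hc⟩)
    exact ⟨u, mem_iUnion.2 ⟨n, hu⟩, hcu⟩
  have htop : (⋃ n, br EE p r n) ∪ {a} ∈ TT S 𝒮 A dec :=
    E_lim hdec haS hX hrA (fun n => (hmem n).1) hcof
  set t := (⋃ n, br EE p r n) ∪ {a} with ht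
  have hbr : ∀ n, ∃ m, br EE p r n = p m := fun n => br_mem r n
  have hlt : ∀ n, ∀ x ∈ br EE p r n, x < a := by
    intro n x hx
    obtain ⟨m, hm⟩ := hbr n
    rw [hm] at hx
    exact ((good_E 𝒮 A dec _ _).le x hx).trans_lt (hmem m).1
  have hEE : ∀ n, EE (br EE p r n) t := by
    intro n
    refine ⟨(subset_iUnion (fun n => br EE p r n) n).trans subset_union_left,
      fun x hx hxn y hy => ?_⟩
    rcases hx with hx | rfl
    · obtain ⟨m, hm⟩ := mem_iUnion.1 hx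
      rcases le_total m n with hmn | hmn
      · exact absurd ((br_mono EE.refl (fun _ _ _ => EE.trans) r hmn).1 hm) hxn
      · exact (br_mono EE.refl (fun _ _ _ => EE.trans) r hmn).2 x hm hxn y hy
    · exact hlt n y hy
  have hne : ∀ n, br EE p r n ≠ t := by
    intro n h
    have h1 : a ∈ br EE p r n := by rw [h]; exact Or.inr rfl
    exact lt_irrefl _ (hlt n a h1)
  obtain ⟨n, hn⟩ := hgen (Sum.inl (f t))
  rcases hn with hn | hn
  · obtain ⟨m, hm⟩ := hbr n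
    refine hf _ ?_ t htop (hEE n) (hne n) hn
    rw [hm]; exact hN _
  · exact hn ⟨t, htop, hEE n, hne n, rfl⟩

end

end Pool.Agent.Lib.P50703a
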