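import Mathlib
import Pool.Agent.Lib.P50703a.Main

set_option autoImplicit false

open Cardinal Set
open scoped Ordinal

namespace Pool.Agent.Lib.P50703a

section
variable (S : Set Om) {K : Type} (𝒮 : Set (Set K)) (A : Set (ℕ → Bool)) [Nonempty K]
  (dec : K → Code 𝒮 A)

/-- the tree -/
def Node : Type := {t : Set Om // t ∈ TT S 𝒮 A dec}

noncomputable instance : PartialOrder (Node S 𝒮 A dec) where
  le s t := EE s.1 t.1
  le_refl s := EE.refl s.1
  le_trans _ _ _ h h' := EE.trans h h'
  le_antisymm _ _ h h' := Subtype.ext (EE.antisymm h h')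

variable {S} {𝒮} {A} {dec}

theorem le_def' {s t : Node S 𝒮 A dec} : s ≤ t ↔ EE s.1 t.1 := Iff.rfl

theorem lt_ne {s t : Node S 𝒮 A dec} (h : s < t) : s.1 ≠ t.1 := fun he => h.ne (Subtype.ext he)

theorem exists_diff {s t : Node S 𝒮 A dec} (h : s < t) : ∃ x, x ∈ t.1 ∧ x ∉ s.1 := by
  by_contra hcon
  push Not at hcon
  exact lt_ne h ((le_def'.1 h.le).1.antisymm hcon)

/-- the least element of `t` outside `s` -/
noncomputable def mn {s t : Node S 𝒮 A dec} (h : s < t) : Om :=
  (wellFounded_lt (α := Om)).min {x | x ∈ t.1 ∧ x ∉ s.1} (exists_diff h)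

theorem mn_mem {s t : Node S 𝒮 A dec} (h : s < t) : mn h ∈ t.1 ∧ mn h ∉ s.1 :=
  (wellFounded_lt (α := Om)).min_mem _ (exists_diff h)

theorem mn_lt {s s' t : Node S 𝒮 A dec} (h : s < t) (h' : s' < t) (hs : s < s') :
    mn h < mn h' := by
  obtain ⟨x, hx1, hx2⟩ := exists_diff hs
  have h1 : x ∈ t.1 ∧ x ∉ s.1 := ⟨(le_def'.1 h'.le).1 hx1, hx2⟩
  have h2 : mn h ≤ x := not_lt.1 ((wellFounded_lt (α := Om)).not_lt_min _ h1)
  exact h2.trans_lt ((le_def'.1 h'.le).2 _ (mn_mem h').1 (mn_mem h').2 x hx1)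

theorem total_below {s s' t : Node S 𝒮 A dec} (h : s < t) (h' : s' < t) : s ≤ s' ∨ s' ≤ s :=
  EE.comparable h.le h'.le

theorem lt_of_mn_lt {s s' t : Node S 𝒮 A dec} (h : s < t) (h' : s' < t) (hm : mn h < mn h') :
    s < s' := by
  rcases total_below h h' with h1 | h1
  · refine lt_of_le_of_ne h1 ?_
    rintro rfl
    exact lt_irrefl _ hm
  · rcases h1.lt_or_eq with h2 | h2
    · exact absurd (mn_lt h' h h2) (lt_asymm hm)
    · subst h2
      exact absurd hm (lt_irrefl _)

theorem isWellOrder_Iio (t : Node S 𝒮 A dec) : IsWellOrder (Iio t) (· < ·) := by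
  have hemb : (fun a b : Iio t => a < b) ↪r (fun a b : Om => a < b) :=
    { toFun := fun s => mn (s := s.1) (t := t) s.2
      inj' := by
        intro s s' h
        rcases total_below (show s.1 < t from s.2) (show s'.1 < t from s'.2) with h1 | h1
        · rcases h1.lt_or_eq with h2 | h2
          · exact absurd h (mn_lt s.2 s'.2 h2).ne
          · exact Subtype.ext h2
        · rcases h1.lt_or_eq with h2 | h2
          · exact absurd h (mn_lt s'.2 s.2 h2).ne'
          · exact (Subtype.ext h2).symm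
      map_rel_iff' := by
        intro s s'
        exact ⟨fun h => lt_of_mn_lt s.2 s'.2 h, fun h => mn_lt s.2 s'.2 h⟩ }
  exact hemb.isWellOrder

theorem countable_node (t : Node S 𝒮 A dec) : t.1.Countable := by
  obtain ⟨a, ha⟩ := TT_good t.2
  exact (countable_Iic_Om a).mono ha.le

theorem countable_Iio (t : Node S 𝒮 A dec) : (Iio t).Countable := by
  have := (countable_node t).to_subtype
  have h : Function.Injective (fun s : Iio t => (⟨mn (s := s.1) (t := t) s.2,
      (mn_mem (s := s.1) (t := t) s.2).1⟩ : t.1)) := by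
    intro s s' h
    have h0 : mn (s := s.1) (t := t) s.2 = mn (s := s'.1) (t := t) s'.2 := congrArg Subtype.val h
    rcases total_below (show s.1 < t from s.2) (show s'.1 < t from s'.2) with h1 | h1
    · rcases h1.lt_or_eq with h2 | h2
      · exact absurd h0 (mn_lt s.2 s'.2 h2).ne
      · exact Subtype.ext h2
    · rcases h1.lt_or_eq with h2 | h2
      · exact absurd h0 (mn_lt s'.2 s.2 h2).ne'
      · exact (Subtype.ext h2).symm
  exact h.countable

/-- chains are countable -/
theorem countable_chain (hS : Stat Sᶜ) (B : Set (Node S 𝒮 A dec)) (hB : IsChain (· ≤ ·) B) :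
    B.Countable := by
  classical
  by_contra hunc
  -- initial segments of the chain are countable
  have hpre : ∀ t ∈ B, {s ∈ B | s ≤ t}.Countable := by
    intro t _
    refine ((countable_Iio t).union (countable_singleton t)).mono ?_
    rintro s ⟨-, hs⟩
    rcases hs.lt_or_eq with h | h
    · exact Or.inl h
    · exact Or.inr h
  -- every countable part of the chain is bounded in the chain
  have hbig : ∀ C : Set (Node S 𝒮 A dec), C ⊆ B → C.Countable → ∃ t ∈ B, ∀ s ∈ C, s < t := by
    intro C hC hCc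
    by_contra hcon
    push Not at hcon
    apply hunc
    refine (hCc.biUnion (t := fun s _ => {u ∈ B | u ≤ s}) fun s hs => hpre s (hC hs)).mono ?_
    intro t ht
    obtain ⟨s, hs, hst⟩ := hcon t ht
    refine mem_biUnion hs ⟨ht, ?_⟩
    rcases hB.total ht (hC hs) with h | h
    · exact h
    · rcases h.lt_or_eq with h' | h'
      · exact absurd h' hst
      · exact h'.ge
  -- the union is unbounded
  have hne : ∃ t, t ∈ B := by
    by_contra hcon
    push Not at hcon
    exact hunc (by rw [eq_empty_iff_forall_notMem.2 hcon]; exact countable_empty)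
  have hunb : ∀ c : Om, ∃ t ∈ B, ∃ u ∈ t.1, c < u := by
    intro c
    by_contra hcon
    push Not at hcon
    -- then the chain injects into the countable set `Iic c`
    apply hunc
    have : Countable (Iic c) := (countable_Iic_Om c).to_subtype
    have hnx : ∀ s : B, ∃ t ∈ B, s.1 < t := fun s => by
      obtain ⟨t, ht, h⟩ := hbig {s.1} (singleton_subset_iff.2 s.2) (countable_singleton _)
      exact ⟨t, ht, h _ rfl⟩
    choose nx hnx1 hnx2 using hnx
    have hinj : Function.Injective (fun s : B => (⟨mn (hnx2 s),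
        hcon _ (hnx1 s) _ (mn_mem (hnx2 s)).1⟩ : Iic c)) := by
      intro s s' h
      have h0 : mn (hnx2 s) = mn (hnx2 s') := congrArg Subtype.val h
      by_contra hss
      have key : ∀ u u' : B, u.1 < u'.1 → mn (hnx2 u) < mn (hnx2 u') := by
        intro u u' huu
        obtain ⟨x, hx1, hx2⟩ := exists_diff huu
        have h2 : mn (hnx2 u) ≤ x := by
          rcases hB.total (hnx1 u) u'.2 with h1 | h1
          · -- `nx u ≤ u'`
            by_contra hlt
            rw [not_le] at hlt
            have hx3 : x ∉ (nx u).1 := fun hx3 =>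
              (wellFounded_lt (α := Om)).not_lt_min {x | x ∈ (nx u).1 ∧ x ∉ u.1.1}
                (x := x) ⟨hx3, hx2⟩ hlt
            exact absurd ((le_def'.1 h1).2 x hx1 hx3 _ (mn_mem (hnx2 u)).1) (lt_asymm hlt)
          · exact not_lt.1 ((wellFounded_lt (α := Om)).not_lt_min {x | x ∈ (nx u).1 ∧ x ∉ u.1.1}
              ⟨(le_def'.1 h1).1 hx1, hx2⟩)
        exact h2.trans_lt ((le_def'.1 (hnx2 u').le).2 _ (mn_mem (hnx2 u')).1
          (mn_mem (hnx2 u')).2 x hx1)
      rcases hB.total s.2 s'.2 with h1 | h1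
      · exact absurd h0 (key s s' (lt_of_le_of_ne h1 fun h => hss (Subtype.ext h))).ne
      · exact absurd h0 (key s' s (lt_of_le_of_ne h1 fun h => hss (Subtype.ext h).symm)).ne'
    have hc : Countable B := hinj.countable
    exact hc.to_set
  -- so the union is closed unbounded in `S`
  choose g hgB g' hg'mem hg'lt using hunb
  have hS' : ∀ t ∈ B, t.1 ⊆ S := fun t _ => (TT_good t.2).choose_spec.sub
  obtain ⟨a, haS, ⟨x0, hx0⟩, ha⟩ := hS g'
  apply haS
  -- `a` is a limit of the union
  have hmem : a ∈ (g a).1 := by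
    obtain ⟨e, he⟩ := TT_good (g a).2
    refine he.cl a ⟨g' a, hg'mem a, (hg'lt a).le⟩ ⟨x0, hx0⟩ fun b hb => ?_
    refine ⟨g' b, ?_, hg'lt b, ha b hb⟩
    rcases hB.total (hgB b) (hgB a) with h | h
    · exact (le_def'.1 h).1 (hg'mem b)
    · by_contra hcon
      have := (le_def'.1 h).2 (g' b) (hg'mem b) hcon (g' a) (hg'mem a)
      exact absurd ((hg'lt a).trans this) (lt_asymm (ha b hb))
  exact hS' (g a) (hgB a) hmem

theorem mk_node_le (hK : ℵ₁ ≤ #K) : #(Node S 𝒮 A dec) ≤ #K := by
  have h : Function.Surjective (fun q : Om × K =>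
      (⟨E S 𝒮 A dec q.1 q.2, ⟨q.1, q.2, rfl⟩⟩ : Node S 𝒮 A dec)) := by
    rintro ⟨t, a, k, rfl⟩
    exact ⟨(a, k), rfl⟩
  refine (mk_le_of_surjective h).trans ?_
  rw [mk_prod, lift_id, lift_id, mk_W]
  exact (mul_le_mul' hK le_rfl).trans (mul_eq_self (aleph0_lt_aleph_one.le.trans hK)).le

theorem not_isSpecial (hdec : Function.Surjective dec) (hA : ¬ IsMeagre A) (hS : Stat S)
    (hcount : ∀ X ∈ 𝒮, X.Countable)
    (hstat : ∀ (F : K → Om → Om → ℕ → K) (H : K → Om → Om → ℕ → Om),
      ∃ X ∈ 𝒮, ∃ a ∈ S, X.Nonempty ∧ (∃ x, x < a) ∧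
        ∀ x ∈ X, ∀ b < a, ∀ c < a, ∀ n, F x b c n ∈ X ∧ H x b c n < a) :
    ¬ IsSpecial (Node S 𝒮 A dec) := by
  classical
  rintro ⟨C, hC, hun⟩
  have h1 : ∀ t : Node S 𝒮 A dec, ∃ n, t ∈ C n := fun t => mem_iUnion.1 (hun ▸ mem_univ t)
  choose n hn using h1
  refine not_special hdec hA hS hcount hstat
    (fun t => if h : t ∈ TT S 𝒮 A dec then n ⟨t, h⟩ else 0) ?_
  intro s hs t ht hst hne heq
  simp only [hs, ht, dif_pos] at heq
  let s' : Node S 𝒮 A dec := ⟨s, hs⟩
  let t' : Node S 𝒮 A dec := ⟨t, ht⟩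
  have h2 : s' ≤ t' := hst
  have heq' : n s' = n t' := heq
  have hns : s' ∈ C (n t') := by rw [← heq']; exact hn s'
  have hne' : s' ≠ t' := fun h => hne (congrArg Subtype.val h)
  exact hC (n t') hns (hn t') hne' h2

end

/-- levels are antichains -/
theorem level_antichain {T : Type} [PartialOrder T] (α : Ordinal.{0}) :
    IsAntichain (· ≤ ·) {t : T | OnLevel t α} := by
  rintro s ⟨e⟩ t ⟨e'⟩ hne hle
  have hlt : s < t := lt_of_le_of_ne hle hne
  -- then `Iio s` is isomorphic to a proper initial segment of `Iio t`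
  have hsub : ∀ x : Iio s, x.1 < t := fun x => lt_trans x.2 hlt
  let g : Iio α → Iio α := fun x => e' ⟨(e.symm x).1, hsub _⟩
  have hg : StrictMono g := by
    intro x y hxy
    have : e.symm x < e.symm y := e.symm.lt_iff_lt.2 hxy
    exact e'.lt_iff_lt.2 (show (⟨(e.symm x).1, _⟩ : Iio t) < ⟨(e.symm y).1, _⟩ from this)
  let z : Iio α := e' ⟨s, hlt⟩
  have hz : ∀ x : Iio α, g x < z := fun x =>
    e'.lt_iff_lt.2 (show (⟨(e.symm x).1, _⟩ : Iio t) < ⟨s, hlt⟩ from (e.symm x).2)
  have h1 : z ≤ g z := hg.le_apply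
  exact absurd (hz z) (not_lt.2 h1)

/-- the order type of the predecessors -/
theorem exists_level {T : Type} [PartialOrder T] (hT : IsTree T) (t : T) :
    ∃ α : Ordinal.{0}, OnLevel t α := by
  classical
  have := hT t
  have hlin : ∀ a b : Iio t, a < b ∨ a = b ∨ b < a := fun a b => trichotomous_of (· < ·) a b
  let _ : LinearOrder (Iio t) :=
    { (inferInstance : PartialOrder (Iio t)) with
      le_total := fun a b => by
        rcases hlin a b with h | h | h
        · exact Or.inl h.le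
        · exact Or.inl h.le
        · exact Or.inr h.le
      toDecidableLE := Classical.decRel _
      toDecidableEq := Classical.decEq _
      toDecidableLT := Classical.decRel _ }
  have : WellFoundedLT (Iio t) := ⟨(hT t).wf⟩
  refine ⟨typeLT (Iio t), ?_⟩
  have e1 : (typeLT (Iio t)).ToType ≃o Iio t := by
    have h := Ordinal.type_toType (typeLT (Iio t))
    exact OrderIso.ofRelIsoLT (Ordinal.type_eq.1 h).some
  exact ⟨e1.symm.trans Ordinal.ToType.mk.symm⟩

theorem level_lt {T : Type} [PartialOrder T] {t : T} {α : Ordinal.{0}} (h : OnLevel t α)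
    (hc : (Iio t).Countable) : α < ω₁ := by
  obtain ⟨e⟩ := h
  by_contra hcon
  rw [not_lt] at hcon
  have h1 : (Iio α).Countable := by
    have := hc.to_subtype
    have : Countable (Iio α) := e.symm.injective.countable
    exact this.to_set
  have h2 : (Iio (ω₁ : Ordinal.{0})).Countable := h1.mono (Iio_subset_Iio hcon)
  have h3 := mk_le_aleph0_iff.2 h2.to_subtype
  rw [mk_Iio_ordinal] at h3
  simp at h3

theorem level_below {T : Type} [PartialOrder T] {t : T} {α β : Ordinal.{0}} (h : OnLevel t α)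
    (hβ : β < α) : ∃ s < t, OnLevel s β := by
  obtain ⟨e⟩ := h
  let s := e.symm ⟨β, hβ⟩
  refine ⟨s.1, s.2, ⟨?_⟩⟩
  refine
    { toFun := fun x => ⟨(e ⟨x.1, lt_trans x.2 s.2⟩).1, ?_⟩
      invFun := fun γ => ⟨(e.symm ⟨γ.1, lt_trans γ.2 hβ⟩).1, ?_⟩
      left_inv := ?_
      right_inv := ?_
      map_rel_iff' := ?_ }
  · have h1 : (⟨x.1, lt_trans x.2 s.2⟩ : Iio t) < s := x.2
    have h2 := e.lt_iff_lt.2 h1
    rw [e.apply_symm_apply] at h2
    exact h2
  · have h1 : (⟨γ.1, lt_trans γ.2 hβ⟩ : Iio α) < ⟨β, hβ⟩ := γ.2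
    exact e.symm.lt_iff_lt.2 h1
  · intro x
    have h : (e.symm (e ⟨x.1, lt_trans x.2 s.2⟩)).1 = x.1 := by rw [e.symm_apply_apply]
    exact Subtype.ext h
  · intro γ
    have h : (e (e.symm ⟨γ.1, lt_trans γ.2 hβ⟩)).1 = γ.1 := by rw [e.apply_symm_apply]
    exact Subtype.ext h
  · intro x y
    exact e.le_iff_le

/-- a non-special tree all of whose nodes have countably many predecessors has height `ω₁` -/
theorem height_of_not_special {T : Type} [PartialOrder T] (hT : IsTree T)
    (hc : ∀ t : T, (Iio t).Countable) (hns : ¬ IsSpecial T) : HeightOmegaOne T := by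
  classical
  refine ⟨fun α hα => ?_, fun ⟨t, ht⟩ => lt_irrefl _ (level_lt ht (hc t))⟩
  by_contra hcon
  push Not at hcon
  apply hns
  -- all levels are below `α`
  have hlev : ∀ t : T, ∃ β, β < α ∧ OnLevel t β := by
    intro t
    obtain ⟨β, hβ⟩ := exists_level hT t
    refine ⟨β, ?_, hβ⟩
    by_contra hle
    rw [not_lt] at hle
    rcases hle.lt_or_eq with h | h
    · obtain ⟨s, -, hs⟩ := level_below hβ h
      exact hcon s hs
    · exact hcon t (h ▸ hβ)
  have hcα : (Iio α).Countable := by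
    have h1 : α.card < ℵ₁ := by
      rw [← lt_ord, ord_aleph]; exact hα
    have h2 : #(Iio α) ≤ ℵ₀ := by
      rw [mk_Iio_ordinal, ← lift_aleph0.{1, 0}, lift_le]
      exact countable_of_lt_aleph_one h1
    exact (mk_le_aleph0_iff.1 h2).to_set
  rcases (Iio α).eq_empty_or_nonempty with he | hne
  · refine ⟨fun _ => ∅, fun _ => by simp, ?_⟩
    ext t
    obtain ⟨β, hβ, -⟩ := hlev t
    exact absurd (show β ∈ Iio α from hβ) (by rw [he]; simp)
  · obtain ⟨g, hg⟩ := hcα.exists_eq_range hne
    refine ⟨fun n => {t | OnLevel t (g n)}, fun n => level_antichain _, ?_⟩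
    ext t
    simp only [mem_iUnion, mem_ofPred_eq, mem_univ, iff_true]
    obtain ⟨β, hβ, hl⟩ := hlev t
    have h3 : β ∈ range g := hg ▸ hβ
    obtain ⟨n, rfl⟩ := h3
    exact ⟨n, hl⟩

end Pool.Agent.Lib.P50703a
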