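import Mathlib
import Pool.Agent.Lib.P50703a.Order

set_option autoImplicit false

open Cardinal Set
open scoped Ordinal

namespace Pool.Agent.Lib.P50703a

theorem exists_nonMeagre : ∃ A : Set (ℕ → Bool), ¬ IsMeagre A ∧ #A = nonMeagre := by
  have h : {c : Cardinal.{0} | ∃ A : Set (ℕ → Bool), ¬ IsMeagre A ∧ #A = c}.Nonempty :=
    ⟨_, Set.univ, not_isMeagre_of_isOpen isOpen_univ univ_nonempty, rfl⟩
  exact csInf_mem h

theorem isMeagre_of_countable {A : Set (ℕ → Bool)} (hA : A.Countable) : IsMeagre A := by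
  have h1 : A = ⋃ x ∈ A, {x} := by simp
  rw [h1]
  refine isMeagre_biUnion hA fun x _ => ?_
  apply IsNowhereDense.isMeagre
  rw [IsClosed.isNowhereDense_iff isClosed_singleton, interior_eq_empty_iff_dense_compl,
    dense_iff_inter_open]
  rintro U hU ⟨y, hy⟩
  by_cases hyx : y = x
  · subst hyx
    obtain ⟨I, u, hu, hsub⟩ := isOpen_pi_iff.1 hU y hy
    obtain ⟨n, hn⟩ := Infinite.exists_notMem_finset I
    refine ⟨Function.update y n (!(y n)), hsub fun i hi => ?_, ?_⟩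
    · have : i ≠ n := fun h => hn (h ▸ hi)
      rw [Function.update_of_ne this]
      exact (hu i hi).2
    · intro h
      have := congrFun h n
      simp at this
  · exact ⟨y, hy, hyx⟩

theorem aleph_one_le_nonMeagre : ℵ₁ ≤ nonMeagre := by
  obtain ⟨A, hA, hcard⟩ := exists_nonMeagre
  rw [← hcard, ← succ_aleph0, Order.succ_le_iff]
  by_contra hcon
  exact hA (isMeagre_of_countable (mk_le_aleph0_iff.1 (not_lt.1 hcon)).to_set)

theorem st_le {κ : Cardinal.{0}} (hκ : nonMeagre ≤ κ)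
    (hfam : ∀ S : Set Om, Stat S → ∀ K : Type, #K = κ → StatFam S K) :
    specialTreeNumber ≤ κ := by
  classical
  obtain ⟨S, hS, hSc⟩ := exists_stat
  obtain ⟨A, hA, hcard⟩ := exists_nonMeagre
  have h1 : ℵ₁ ≤ κ := aleph_one_le_nonMeagre.trans hκ
  have h0 : ℵ₀ ≤ κ := aleph0_lt_aleph_one.le.trans h1
  obtain ⟨K, hK⟩ : ∃ K : Type, #K = κ := ⟨κ.out, mk_out κ⟩
  have hKne : Nonempty K := by
    rw [← mk_ne_zero_iff, hK]
    exact (aleph0_pos.trans_le h0).ne'
  obtain ⟨𝒮, h𝒮, hcount, hstat⟩ := hfam S hS K hK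
  have hcode : #(Code 𝒮 A) ≤ #K := by
    have h2 : #(Om × K) ≤ κ := by
      rw [mk_prod, lift_id, lift_id, mk_W, hK]
      exact (mul_le_mul' h1 le_rfl).trans (mul_eq_self h0).le
    have h3 : #(𝒮 × A) ≤ κ := by
      rw [mk_prod, lift_id, lift_id, hcard]
      exact (mul_le_mul' (h𝒮.trans hK.le) hκ).trans (mul_eq_self h0).le
    have h4 : #Unit ≤ κ := by
      rw [mk_unit]; exact one_lt_aleph0.le.trans h0
    have e : #(Code 𝒮 A) = #Unit + (#(Om × K) + (#(Om × K) + #(𝒮 × A))) := by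
      simp only [Code, mk_sum, lift_id]
    rw [e, hK]
    exact add_le_of_le h0 h4 (add_le_of_le h0 h2 (add_le_of_le h0 h2 h3))
  obtain ⟨g⟩ := Cardinal.le_def _ _ |>.1 hcode
  have : Nonempty (Code 𝒮 A) := ⟨Sum.inl ()⟩
  let dec : K → Code 𝒮 A := Function.invFun g
  have hdec : Function.Surjective dec := Function.invFun_surjective g.injective
  have hT : IsTree (Node S 𝒮 A dec) := fun t => isWellOrder_Iio t
  have hns : ¬ IsSpecial (Node S 𝒮 A dec) := not_isSpecial hdec hA hS hcount hstat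
  have hnb : ¬ HasCofinalBranch (Node S 𝒮 A dec) := by
    rintro ⟨B, hB, hunc⟩
    exact hunc (countable_chain hSc B hB.1)
  have hmem : #(Node S 𝒮 A dec) ∈ {c : Cardinal.{0} | ∃ (T : Type) (_ : PartialOrder T),
      IsTree T ∧ HeightOmegaOne T ∧ ¬ HasCofinalBranch T ∧ ¬ IsSpecial T ∧ #T = c} :=
    ⟨Node S 𝒮 A dec, inferInstance, hT, height_of_not_special hT countable_Iio hns, hnb, hns, rfl⟩
  exact (csInf_le' hmem).trans ((mk_node_le (h1.trans hK.ge)).trans hK.le)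

/-- every uncountable cardinal below `ℵ_ω` is `ℵ_(n+1)` for a natural number `n` -/
theorem eq_aleph_succ {κ : Cardinal.{0}} (h1 : ℵ₁ ≤ κ) (h : κ < ℵ_ ω) :
    ∃ n : ℕ, κ = ℵ_ (n + 1) := by
  obtain ⟨o, rfl⟩ := mem_range_aleph_iff.2 (aleph0_lt_aleph_one.le.trans h1)
  have ho : o < ω := aleph_lt_aleph.1 h
  obtain ⟨m, rfl⟩ := Ordinal.lt_omega0.1 ho
  have hm : (1 : Ordinal.{0}) ≤ m := aleph_le_aleph.1 h1
  obtain ⟨n, rfl⟩ : ∃ n, m = n + 1 := by
    have : 1 ≤ m := by exact_mod_cast hm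
    exact ⟨m - 1, by omega⟩
  exact ⟨n, by push_cast; rfl⟩

/-- `st ≤ non(M)` if `non(M) < ℵ_ω` -/
theorem st_le_nonMeagre (h : nonMeagre < ℵ_ ω) : specialTreeNumber ≤ nonMeagre := by
  obtain ⟨n, hn⟩ := eq_aleph_succ aleph_one_le_nonMeagre h
  refine st_le le_rfl fun S hS K hK => statFam_aleph hS n K (hK.trans hn)

end Pool.Agent.Lib.P50703a
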